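import Mathlib

set_option autoImplicit false

/-!
# Out-degree deficiency and girth of digraphs

A digraph on a finite type `V` is a relation `Adj` on `V`.
-/

open Finset

namespace Pool.Agent.K4H90.SH

/-- Every directed cycle of `Adj` (a closed sequence of `k ≥ 1` distinct vertices, each joined to
the next by an arc) has length at least `g`. -/
def GirthGE {V : Type} (Adj : V → V → Prop) (g : ℕ) : Prop :=
  ∀ (k : ℕ) (c : Fin k → V), 0 < k → Function.Injective c →
    (∀ i : Fin k, Adj (c i) (c (finRotate k i))) → g ≤ k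

open Classical in
/-- The out-degree of `u`. -/
noncomputable def odeg {V : Type} [Fintype V] (Adj : V → V → Prop) (u : V) : ℕ :=
  (univ.filter fun w => Adj u w).card

/-- The out-degree deficiency relative to `r`: the sum of `max (r - d⁺(u), 0)`. -/
noncomputable def deficiency {V : Type} [Fintype V] (Adj : V → V → Prop) (r : ℕ) : ℕ :=
  ∑ u : V, (r - odeg Adj u)

/-- walks of length `k` -/
inductive Walk {V : Type} (Adj : V → V → Prop) : ℕ → V → V → Prop
  | nil (a : V) : Walk Adj 0 a a
  | cons {k : ℕ} {a b c : V} (h : Adj a b) (w : Walk Adj k b c) : Walk Adj (k + 1) a c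

/-- no closed walk of length between `1` and `g - 1` -/
def NoClosed {V : Type} (Adj : V → V → Prop) (g : ℕ) : Prop :=
  ∀ (k : ℕ) (v : V), 1 ≤ k → Walk Adj k v v → g ≤ k

theorem Walk.map {V W : Type} {Adj : V → V → Prop} {B : W → W → Prop} (π : W → V)
    (hπ : ∀ a b, B a b → Adj (π a) (π b)) {k : ℕ} {a b : W} (h : Walk B k a b) :
    Walk Adj k (π a) (π b) := by
  induction h with
  | nil a => exact Walk.nil _
  | cons h _ ih => exact Walk.cons (hπ _ _ h) ih

theorem NoClosed.map {V W : Type} {Adj : V → V → Prop} {B : W → W → Prop} {g : ℕ} (π : W → V)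
    (hπ : ∀ a b, B a b → Adj (π a) (π b)) (h : NoClosed Adj g) : NoClosed B g :=
  fun k v hk hw => h k (π v) hk (hw.map π hπ)

theorem walk_of_seq {V : Type} {Adj : V → V → Prop} (f : ℕ → V) :
    ∀ (k s : ℕ), (∀ i, i < k → Adj (f (s + i)) (f (s + i + 1))) → Walk Adj k (f s) (f (s + k)) := by
  intro k
  induction k with
  | zero => intro s _; exact Walk.nil _
  | succ k ih =>
    intro s h
    refine Walk.cons (by simpa using h 0 (Nat.succ_pos _)) ?_
    have := ih (s + 1) (fun i hi => by
      have h1 := h (i + 1) (by omega)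
      have e1 : s + (i + 1) = s + 1 + i := by omega
      rw [e1] at h1
      exact h1)
    have e2 : s + (k + 1) = s + 1 + k := by omega
    rw [e2]
    exact this

theorem seq_of_walk {V : Type} {Adj : V → V → Prop} {k : ℕ} {a b : V} (h : Walk Adj k a b) :
    ∃ f : ℕ → V, f 0 = a ∧ f k = b ∧ ∀ i, i < k → Adj (f i) (f (i + 1)) := by
  induction h with
  | nil a => exact ⟨fun _ => a, rfl, rfl, fun i hi => absurd hi (Nat.not_lt_zero _)⟩
  | @cons k a b c h w ih =>
    obtain ⟨f, h0, hk, hf⟩ := ih
    refine ⟨fun i => if i = 0 then a else f (i - 1), by simp, by simp [hk], ?_⟩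
    intro i hi
    rcases Nat.eq_zero_or_pos i with rfl | hi0
    · simp [h0, h]
    · have h1 := hf (i - 1) (by omega)
      have e1 : i - 1 + 1 = i := by omega
      rw [e1] at h1
      simp [hi0.ne', h1]

theorem girthGE_of_noClosed {V : Type} {Adj : V → V → Prop} {g : ℕ} (h : NoClosed Adj g) :
    GirthGE Adj g := by
  intro k c hk _ hc
  obtain ⟨k, rfl⟩ : ∃ l, k = l + 1 := ⟨k - 1, by omega⟩
  have hw := walk_of_seq (Adj := Adj) (fun i => c (Fin.ofNat (k + 1) i)) (k + 1) 0 (by
    intro i hi
    have h1 := hc (Fin.ofNat (k + 1) (0 + i))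
    rw [finRotate_apply] at h1
    have e : Fin.ofNat (k + 1) (0 + i + 1) = Fin.ofNat (k + 1) (0 + i) + 1 := by
      apply Fin.ext
      simp [Fin.ofNat, Fin.val_add]
    change Adj (c (Fin.ofNat (k + 1) (0 + i))) (c (Fin.ofNat (k + 1) (0 + i + 1)))
    rw [e]
    exact h1)
  have e : Fin.ofNat (k + 1) (0 + (k + 1)) = Fin.ofNat (k + 1) 0 := by
    apply Fin.ext
    simp [Fin.ofNat]
  rw [e] at hw
  exact h (k + 1) _ hk hw

theorem noClosed_of_girthGE {V : Type} {Adj : V → V → Prop} {g : ℕ} (h : GirthGE Adj g) :
    NoClosed Adj g := by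
  classical
  intro k v hk hw
  -- a shortest closed walk
  have hex : ∃ k : ℕ, 1 ≤ k ∧ ∃ v, Walk Adj k v v := ⟨k, hk, v, hw⟩
  set k₀ := Nat.find hex with hk₀
  obtain ⟨h1, v₀, h2⟩ := Nat.find_spec hex
  rw [← hk₀] at h1 h2
  have hle : k₀ ≤ k := Nat.find_min' hex ⟨hk, v, hw⟩
  obtain ⟨f, f0, fk, hf⟩ := seq_of_walk h2
  have hinj : ∀ i j, i < j → j < k₀ → f i ≠ f j := by
    intro i j hij hj heq
    have hw' := walk_of_seq (Adj := Adj) f (j - i) i (fun l hl => hf (i + l) (by omega))
    have e : i + (j - i) = j := by omega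
    rw [e, ← heq] at hw'
    exact Nat.find_min hex (m := j - i) (by omega) ⟨by omega, f i, hw'⟩
  refine le_trans (h k₀ (fun i => f i) (by omega) ?_ ?_) hle
  · intro i j hij
    by_contra hne
    rcases lt_or_gt_of_ne (fun h => hne (Fin.ext h) : (i : ℕ) ≠ j) with h3 | h3
    · exact hinj i j h3 j.2 hij
    · exact hinj j i h3 i.2 hij.symm
  · obtain ⟨l, hl⟩ : ∃ l, k₀ = l + 1 := ⟨k₀ - 1, by omega⟩
    clear_value k₀
    subst hl
    intro i
    rw [finRotate_apply]
    by_cases hi : (i : ℕ) = l
    · have e : ((i + 1 : Fin (l + 1)) : ℕ) = 0 := by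
        rw [Fin.val_add_one, if_pos (by apply Fin.ext; simpa using hi)]
      rw [e, f0, ← fk]
      have := hf i i.2
      rw [hi] at this ⊢
      exact this
    · have e : ((i + 1 : Fin (l + 1)) : ℕ) = i + 1 := by
        rw [Fin.val_add_one, if_neg (by
          intro h
          apply hi
          rw [h]
          simp)]
      rw [e]
      exact hf i i.2

/-- a digraph without sinks has at least as many vertices as its girth -/
theorem le_card {V : Type} [Fintype V] [Nonempty V] {Adj : V → V → Prop} {g : ℕ}
    (hs : ∀ u, ∃ w, Adj u w) (h : NoClosed Adj g) : g ≤ Fintype.card V := by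
  classical
  choose nx hnx using hs
  obtain ⟨v₀⟩ := ‹Nonempty V›
  set f : ℕ → V := fun i => nx^[i] v₀ with hf
  have hstep : ∀ i, Adj (f i) (f (i + 1)) := by
    intro i
    simp only [hf, Function.iterate_succ', Function.comp_apply]
    exact hnx _
  obtain ⟨i, j, hij, heq⟩ : ∃ i j : Fin (Fintype.card V + 1), i < j ∧ f i = f j := by
    obtain ⟨i, j, hne, heq⟩ := Fintype.exists_ne_map_eq_of_card_lt
      (fun i : Fin (Fintype.card V + 1) => f i) (by simp)
    rcases lt_or_gt_of_ne hne with h1 | h1
    · exact ⟨i, j, h1, heq⟩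
    · exact ⟨j, i, h1, heq.symm⟩
  have hij' : (i : ℕ) < j := hij
  have hw := walk_of_seq (Adj := Adj) f (j - i) i (fun l _ => hstep _)
  have e : (i : ℕ) + (j - i) = j := by omega
  rw [e, ← heq] at hw
  have h1 := h _ _ (by omega) hw
  have := j.2
  omega

/-! ### Copying an out-neighbour -/

/-- a new vertex `none`, a copy of `v` whose only in-neighbour is `u` -/
def copy {V : Type} (Adj : V → V → Prop) (u v : V) : Option V → Option V → Prop
  | some a, some b => Adj a b
  | some a, none => a = u
  | none, some b => Adj v b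
  | none, none => False

section copy

variable {V : Type} {Adj : V → V → Prop} {u v : V}

theorem copy_loopless (hl : ∀ a, ¬ Adj a a) (a : Option V) : ¬ copy Adj u v a a := by
  cases a with
  | none => exact fun h => h
  | some a => exact hl a

theorem copy_noClosed (huv : Adj u v) {g : ℕ} (h : NoClosed Adj g) :
    NoClosed (copy Adj u v) g := by
  refine h.map (fun a => a.elim v id) ?_
  intro a b hab
  match a, b, hab with
  | some a, some b, hab => exact hab
  | some a, none, hab =>
    change a = u at hab
    rw [hab]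
    exact huv
  | none, some b, hab => exact hab

theorem odeg_eq {V : Type} [Fintype V] (Adj : V → V → Prop) (a : V) [DecidablePred (Adj a)] :
    odeg Adj a = ∑ w, if Adj a w then 1 else 0 := by
  classical
  rw [odeg, Finset.card_filter]
  refine Finset.sum_congr rfl fun w _ => ?_
  split_ifs <;> rfl

open Classical in
theorem odeg_copy_some [Fintype V] (a : V) :
    odeg (copy Adj u v) (some a) = odeg Adj a + if a = u then 1 else 0 := by
  rw [odeg_eq, odeg_eq, Fintype.sum_option, add_comm]
  rfl

open Classical in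
theorem odeg_copy_none [Fintype V] : odeg (copy Adj u v) none = odeg Adj v := by
  rw [odeg_eq, odeg_eq, Fintype.sum_option]
  have h : (if copy Adj u v none none then 1 else 0) = 0 := if_neg fun h => h
  rw [h, zero_add]
  rfl

theorem deficiency_copy [Fintype V] {r : ℕ} (hu : odeg Adj u < r) (hv : r ≤ odeg Adj v) :
    deficiency (copy Adj u v) r + 1 = deficiency Adj r := by
  classical
  rw [deficiency, deficiency, Fintype.sum_option, odeg_copy_none, Nat.sub_eq_zero_of_le hv,
    zero_add]
  simp only [odeg_copy_some]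
  rw [← Finset.add_sum_erase _ _ (mem_univ u), ← Finset.add_sum_erase _ (fun a => r - odeg Adj a)
    (mem_univ u)]
  have h1 : ∑ x ∈ univ.erase u, (r - (odeg Adj x + if x = u then 1 else 0)) =
      ∑ x ∈ univ.erase u, (r - odeg Adj x) := by
    refine Finset.sum_congr rfl fun x hx => ?_
    rw [if_neg (Finset.ne_of_mem_erase hx), add_zero]
  rw [h1, if_pos rfl]
  omega

end copy

/-- the last deficient vertex on a path -/
theorem exists_step {V : Type} {Adj : V → V → Prop} {P : V → Prop} {a b : V}
    (h : Relation.ReflTransGen Adj a b) (hb : P b) (ha : ¬ P a) :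
    ∃ c d, Adj c d ∧ ¬ P c ∧ P d := by
  classical
  induction h using Relation.ReflTransGen.head_induction_on with
  | refl => exact absurd hb ha
  | @head a c hac _ ih =>
    by_cases hc : P c
    · exact ⟨a, c, hac, ha, hc⟩
    · exact ih hc

/-- If every deficient vertex reaches one which is not deficient, then the deficiency can be
repaired by copying. -/
theorem repair {r g : ℕ} : ∀ (t : ℕ) (V : Type) [Fintype V] [Nonempty V] (Adj : V → V → Prop),
    deficiency Adj r = t → (∀ a, ¬ Adj a a) → NoClosed Adj g →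
    (∀ a, odeg Adj a < r → ∃ b, Relation.ReflTransGen Adj a b ∧ r ≤ odeg Adj b) →
    ∃ (W : Type) (_ : Fintype W) (_ : Nonempty W) (B : W → W → Prop), (∀ w, ¬ B w w) ∧
      (∀ w, r ≤ odeg B w) ∧ NoClosed B g ∧ Fintype.card W = Fintype.card V + t := by
  intro t
  induction t with
  | zero =>
    intro V _ _ Adj ht hl hg _
    refine ⟨V, inferInstance, inferInstance, Adj, hl, fun w => ?_, hg, by simp⟩
    have h1 := (Finset.sum_eq_zero_iff.1 ht) w (mem_univ w)
    omega
  | succ t ih =>
    intro V _ _ Adj ht hl hg hr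
    obtain ⟨a, ha⟩ : ∃ a, odeg Adj a < r := by
      by_contra hcon
      push Not at hcon
      have : deficiency Adj r = 0 := Finset.sum_eq_zero fun a _ => Nat.sub_eq_zero_of_le (hcon a)
      omega
    obtain ⟨b, hab, hb⟩ := hr a ha
    obtain ⟨c, d, hcd, hc, hd⟩ := exists_step (P := fun x => r ≤ odeg Adj x) hab hb (not_le.2 ha)
    have hc' : odeg Adj c < r := not_le.1 hc
    have h1 := deficiency_copy (Adj := Adj) (u := c) (v := d) hc' hd
    obtain ⟨W, i1, i2, B, h2, h3, h4, h5⟩ := ih (Option V) (copy Adj c d) (by omega)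
      (copy_loopless hl) (copy_noClosed hcd hg) (by
        intro x hx
        cases x with
        | none =>
          rw [odeg_copy_none] at hx
          omega
        | some x =>
          rw [odeg_copy_some] at hx
          obtain ⟨y, hxy, hy⟩ := hr x (by omega)
          refine ⟨some y, hxy.lift some fun _ _ h => h, ?_⟩
          rw [odeg_copy_some]
          omega)
    refine ⟨W, i1, i2, B, h2, h3, h4, ?_⟩
    rw [h5, Fintype.card_option]
    omega

/-- The reduction. -/
theorem reduction {g : ℕ} : ∀ (r : ℕ), 1 ≤ r → ∀ (V : Type) [Fintype V] [Nonempty V]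
    (Adj : V → V → Prop), (∀ a, ¬ Adj a a) → (∀ u, ∃ w, Adj u w) → NoClosed Adj g →
    ∃ r', 1 ≤ r' ∧ r' ≤ r ∧ ∃ (W : Type) (_ : Fintype W) (_ : Nonempty W) (B : W → W → Prop),
      (∀ w, ¬ B w w) ∧ (∀ w, r' ≤ odeg B w) ∧ NoClosed B g ∧
      Fintype.card W + (r - r') * g ≤ Fintype.card V + deficiency Adj r := by
  intro r hr1
  induction r, hr1 using Nat.le_induction with
  | base =>
    intro V _ _ Adj hl hs hg
    refine ⟨1, le_rfl, le_rfl, V, inferInstance, inferInstance, Adj, hl, fun w => ?_, hg, by simp⟩
    obtain ⟨x, hx⟩ := hs w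
    exact Finset.card_pos.2 ⟨x, by simp [hx]⟩
  | succ r hr1 ih =>
    intro V _ _ Adj hl hs hg
    classical
    by_cases hcase : ∀ a, odeg Adj a < r + 1 →
        ∃ b, Relation.ReflTransGen Adj a b ∧ r + 1 ≤ odeg Adj b
    · obtain ⟨W, i1, i2, B, h2, h3, h4, h5⟩ := repair _ V Adj rfl hl hg hcase
      exact ⟨r + 1, by omega, le_rfl, W, i1, i2, B, h2, h3, h4, by rw [h5]; simp⟩
    · push Not at hcase
      obtain ⟨a₀, -, ha⟩ := hcase
      -- the vertices reachable from `a₀`
      let D : Type := {a : V // Relation.ReflTransGen Adj a₀ a}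
      let AdjD : D → D → Prop := fun a b => Adj a b
      have hne : Nonempty D := ⟨⟨a₀, Relation.ReflTransGen.refl⟩⟩
      have hsum : ∀ (h : V → ℕ) , ∑ a : D, h a = ∑ a ∈ univ.filter
          (fun a => Relation.ReflTransGen Adj a₀ a), h a := by
        intro h
        exact (Finset.sum_subtype _ (by simp) h).symm
      have hodeg : ∀ a : D, odeg AdjD a = odeg Adj a := by
        intro a
        rw [odeg_eq, odeg_eq]
        rw [hsum (fun w => if Adj a w then 1 else 0)]
        refine Finset.sum_subset (Finset.filter_subset _ _) fun w _ hw => ?_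
        rw [if_neg]
        intro h
        exact hw (by simp only [mem_filter, mem_univ, true_and]; exact a.2.tail h)
      have hsD : ∀ u : D, ∃ w, AdjD u w := by
        intro u
        obtain ⟨w, hw⟩ := hs u
        exact ⟨⟨w, u.2.tail hw⟩, hw⟩
      have hgD : NoClosed AdjD g := hg.map Subtype.val fun _ _ h => h
      obtain ⟨r', hr1', hr2', W, i1, i2, B, h2, h3, h4, h5⟩ :=
        ih D AdjD (fun a => hl a) hsD hgD
      refine ⟨r', hr1', by omega, W, i1, i2, B, h2, h3, h4, ?_⟩
      have h6 : deficiency AdjD r + Fintype.card D = deficiency AdjD (r + 1) := by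
        rw [deficiency, deficiency, Fintype.card_eq_sum_ones, ← Finset.sum_add_distrib]
        refine Finset.sum_congr rfl fun a _ => ?_
        have h7 := ha a a.2
        rw [hodeg]
        omega
      have h7 := le_card hsD hgD
      have h8 : Fintype.card D + deficiency AdjD (r + 1) ≤
          Fintype.card V + deficiency Adj (r + 1) := by
        rw [deficiency, deficiency, Fintype.card_eq_sum_ones, Fintype.card_eq_sum_ones,
          ← Finset.sum_add_distrib, ← Finset.sum_add_distrib]
        simp only [hodeg]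
        rw [hsum (fun a => 1 + (r + 1 - odeg Adj a))]
        exact Finset.sum_le_sum_of_subset (Finset.filter_subset _ _)
      have h9 : (r + 1 - r') * g = (r - r') * g + g := by
        have : r + 1 - r' = (r - r') + 1 := by omega
        rw [this, add_mul, one_mul]
      omega

end Pool.Agent.K4H90.SH
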